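import Pool.Agent.L5helper10.TV.Spl

/-! Plancherel on the half line, and the passage to the windows. -/

set_option autoImplicit false

open Filter Topology Set MeasureTheory

namespace Pool.Agent.L5helper42.CV12

open Pool.Agent.L5helper10.TV

theorem g0_half (κ : ℝ) (hκ0 : 0 ≤ κ) (hκ : κ ≤ 1) (u : ℝ) :
    IntegrableOn (fun t : ℝ => ‖SS κ g0 u t‖ ^ 2) (Ioi 0) ∧
    Real.pi * G0 κ u = ∫ t in Ioi (0 : ℝ), ‖SS κ g0 u t‖ ^ 2 := by
  obtain ⟨h1, h2⟩ := SS_planch κ hκ0 hκ win_g0 u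
  have h3 : ∀ t : ℝ, ‖SS κ g0 u |t|‖ ^ 2 = ‖SS κ g0 u t‖ ^ 2 := by
    intro t
    rcases abs_cases t with ⟨h4, -⟩ | ⟨h4, -⟩
    · rw [h4]
    · rw [h4, SS_neg]; simp
  have h4 := integral_comp_abs (f := fun t => ‖SS κ g0 u t‖ ^ 2)
  simp only [h3] at h4
  rw [h4, fw_g0] at h2
  exact ⟨h1.integrableOn, by linarith⟩

lemma G0_intOn (κ : ℝ) (hκ0 : 0 < κ) (hκ : κ ≤ 1) (a b : ℝ) : IntegrableOn (G0 κ) (Ioc a b) := by
  apply bdd_intOn _ (G0_meas κ) a b (K1 * Real.exp b)
  intro u hu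
  rw [abs_of_nonneg (G0_nonneg κ u)]
  exact ((G0_le_G1 κ u hκ0.le hκ).trans (G1_le κ u hκ0.le hκ)).trans
    (mul_le_mul_of_nonneg_left (Real.exp_le_exp.2 hu.2) K1_nonneg)

/-- the Gaussian mass of `[-W, W]` -/
noncomputable def gm (W : ℝ) : ℝ := ∫ x in (-W)..W, Real.exp (-x ^ 2)

lemma gm_tendsto : Tendsto gm atTop (𝓝 (Real.sqrt Real.pi)) := by
  have h1 : Integrable (fun x : ℝ => Real.exp (-x ^ 2)) := by
    have := integrable_exp_neg_mul_sq (b := 1) one_pos
    simpa using this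
  have h2 := intervalIntegral_tendsto_integral h1 tendsto_neg_atTop_atBot tendsto_id
  have h3 : ∫ x : ℝ, Real.exp (-x ^ 2) = Real.sqrt Real.pi := by
    have := integral_gaussian 1
    simpa using this
  rw [h3] at h2
  exact h2

lemma conv_le (κ : ℝ) (hκ0 : 0 < κ) (hκ : κ ≤ 1) (A B W : ℝ) (hW : 0 ≤ W) :
    gm W * ∫ v in Ioc A B, fk κ v ^ 2 ≤ ∫ u in Ioc (A - W) (B + W), G0 κ u := by
  set F : ℝ × ℝ → ℝ := fun p => fk κ p.2 ^ 2 * Real.exp (-(p.1 - p.2) ^ 2) with hF
  have hFm : Measurable F := (((fk_meas κ).pow_const 2).comp measurable_snd).mul (by fun_prop)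
  have hF0 : ∀ p, 0 ≤ F p := fun p => mul_nonneg (sq_nonneg _) (Real.exp_pos _).le
  have hFb : ∀ u v : ℝ, v ≤ B → F (u, v) ≤ 100 * Real.exp B := by
    intro u v hv
    have h1 := fk_le κ v hκ0.le hκ
    have h2 : fk κ v ^ 2 ≤ 100 * Real.exp B := by
      rw [← sq_abs]
      refine (pow_le_pow_left₀ (abs_nonneg _) h1 2).trans ?_
      rw [mul_pow, ← Real.exp_nat_mul]
      have : ((2 : ℕ) : ℝ) * (v / 2) = v := by push_cast; ring
      rw [this]
      have := Real.exp_le_exp.2 hv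
      linarith
    have h3 : Real.exp (-(u - v) ^ 2) ≤ 1 := Real.exp_le_one_iff.2 (by nlinarith [sq_nonneg (u - v)])
    calc F (u, v) ≤ fk κ v ^ 2 * 1 := mul_le_mul_of_nonneg_left h3 (sq_nonneg _)
      _ ≤ _ := by linarith
  have h1 : ∀ u, ∫ v in Ioc A B, F (u, v) ≤ G0 κ u := by
    intro u
    exact setIntegral_le_integral (G0_int κ u hκ0.le hκ)
      (Eventually.of_forall fun v => mul_nonneg (sq_nonneg _) (Real.exp_pos _).le)
  have hFi : Integrable F ((volume.restrict (Ioc (A - W) (B + W))).prod (volume.restrict (Ioc A B))) := by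
    rw [Measure.prod_restrict]
    apply Measure.integrableOn_of_bounded (M := 100 * Real.exp B) _ hFm.aestronglyMeasurable
    · apply ae_restrict_of_forall_mem (measurableSet_Ioc.prod measurableSet_Ioc)
      rintro ⟨u, v⟩ ⟨-, hv⟩
      rw [Real.norm_of_nonneg (hF0 _)]
      exact hFb u v hv.2
    · rw [← Measure.volume_eq_prod, Measure.volume_eq_prod, Measure.prod_prod]
      simp [ENNReal.mul_eq_top]
  have h2 : ∫ u in Ioc (A - W) (B + W), ∫ v in Ioc A B, F (u, v) =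
      ∫ v in Ioc A B, ∫ u in Ioc (A - W) (B + W), F (u, v) := integral_integral_swap hFi
  have h3 : ∀ v ∈ Ioc A B, gm W * fk κ v ^ 2 ≤ ∫ u in Ioc (A - W) (B + W), F (u, v) := by
    intro v hv
    have e1 : ∫ u in Ioc (v - W) (v + W), F (u, v) = gm W * fk κ v ^ 2 := by
      rw [← intervalIntegral.integral_of_le (by linarith)]
      simp only [hF]
      rw [intervalIntegral.integral_const_mul]
      have : ∫ x in (v - W)..(v + W), Real.exp (-(x - v) ^ 2) = gm W := by
        rw [intervalIntegral.integral_comp_sub_right (fun x => Real.exp (-x ^ 2)) v]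
        unfold gm
        congr 1 <;> ring
      rw [this, mul_comm]
    rw [← e1]
    apply setIntegral_mono_set
    · apply Measure.integrableOn_of_bounded (M := 100 * Real.exp B) (by simp)
        (hFm.comp measurable_prodMk_right).aestronglyMeasurable
      exact ae_restrict_of_forall_mem measurableSet_Ioc fun u hu => by
        change ‖F (u, v)‖ ≤ _
        rw [Real.norm_of_nonneg (hF0 _)]; exact hFb u v hv.2
    · exact Eventually.of_forall fun u => hF0 _
    · have hs : Ioc (v - W) (v + W) ⊆ Ioc (A - W) (B + W) := fun u hu =>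
        ⟨by linarith [hu.1, hv.1], by linarith [hu.2, hv.2]⟩
      exact LE.le.eventuallyLE hs
  have h4 : IntegrableOn (fun v => gm W * fk κ v ^ 2) (Ioc A B) := by
    apply Integrable.const_mul
    apply bdd_intOn _ ((fk_meas κ).pow_const 2) A B (100 * Real.exp B)
    intro v hv
    have := hFb v v hv.2
    simp only [hF, sub_self] at this
    rw [abs_of_nonneg (sq_nonneg _)]
    simpa using this
  calc gm W * ∫ v in Ioc A B, fk κ v ^ 2 = ∫ v in Ioc A B, gm W * fk κ v ^ 2 := (integral_const_mul _ _).symm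
    _ ≤ ∫ v in Ioc A B, ∫ u in Ioc (A - W) (B + W), F (u, v) :=
        setIntegral_mono_on h4 hFi.integral_prod_right measurableSet_Ioc h3
    _ = ∫ u in Ioc (A - W) (B + W), ∫ v in Ioc A B, F (u, v) := h2.symm
    _ ≤ ∫ u in Ioc (A - W) (B + W), G0 κ u :=
        setIntegral_mono_on hFi.integral_prod_left (G0_intOn κ hκ0 hκ _ _) measurableSet_Ioc fun u _ => h1 u

theorem window (k : ℝ → ℝ) (hk : Continuous k) (hk0 : ∀ α, 0 ≤ k α) (B : ℝ) (hkB : ∀ α, k α ≤ B) (ℓ : ℕ)
    (a b w : ℝ) (hw : 0 < w) (haw : 0 ≤ a - w) (hab : a < b) (hb : b + w ≤ ℓ)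
    (hk1 : ∀ α, a - w ≤ α → α ≤ b + w → 1 ≤ k α) (ε : ℝ) (hε : 0 < ε) :
    ∀ᶠ L : ℝ in atTop, ∀ κ : ℝ, 0 < κ → κ ≤ 1 →
    ∫ v in (a * L)..(b * L), fk κ v ^ 2 ≤
      (1 + ε) * (1 / Real.sqrt Real.pi) * ∫ u in Ioc 0 (ℓ * L), k (u / L) * G0 κ u := by
  have hpi : 0 < Real.sqrt Real.pi := Real.sqrt_pos.2 Real.pi_pos
  have hlt : Real.sqrt Real.pi / (1 + ε) < Real.sqrt Real.pi := by
    rw [div_lt_iff₀ (by linarith)]
    nlinarith
  have h1 : ∀ᶠ L : ℝ in atTop, Real.sqrt Real.pi / (1 + ε) < gm (w * L) :=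
    (gm_tendsto.comp (tendsto_id.const_mul_atTop hw)).eventually (lt_mem_nhds hlt)
  filter_upwards [h1, eventually_gt_atTop (0 : ℝ)] with L hL hL0 κ hκ0 hκ
  have hc := conv_le κ hκ0 hκ (a * L) (b * L) (w * L) (by positivity)
  have habL : a * L ≤ b * L := mul_le_mul_of_nonneg_right hab.le hL0.le
  rw [intervalIntegral.integral_of_le habL]
  set X := ∫ v in Ioc (a * L) (b * L), fk κ v ^ 2 with hX
  have hX0 : 0 ≤ X := integral_nonneg fun v => sq_nonneg _
  have hki : IntegrableOn (fun u => k (u / L) * G0 κ u) (Ioc 0 (ℓ * L)) :=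
    (G0_intOn κ hκ0 hκ 0 (ℓ * L)).bdd_mul (c := B) (hk.comp (continuous_id.div_const L)).aestronglyMeasurable
      (Eventually.of_forall fun u => by rw [Real.norm_of_nonneg (hk0 _)]; exact hkB _)
  have h2 : ∫ u in Ioc (a * L - w * L) (b * L + w * L), G0 κ u ≤
      ∫ u in Ioc 0 (ℓ * L), k (u / L) * G0 κ u := by
    have hs : Ioc (a * L - w * L) (b * L + w * L) ⊆ Ioc 0 (ℓ * L) := fun u hu => by
      refine ⟨lt_of_le_of_lt ?_ hu.1, hu.2.trans ?_⟩
      · rw [← sub_mul]; exact mul_nonneg haw hL0.le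
      · rw [← add_mul]; exact mul_le_mul_of_nonneg_right hb hL0.le
    calc ∫ u in Ioc (a * L - w * L) (b * L + w * L), G0 κ u ≤
        ∫ u in Ioc (a * L - w * L) (b * L + w * L), k (u / L) * G0 κ u := by
          apply setIntegral_mono_on (G0_intOn κ hκ0 hκ _ _) (hki.mono_set hs) measurableSet_Ioc
          intro u hu
          have h3 : 1 ≤ k (u / L) := by
            apply hk1
            · rw [le_div_iff₀ hL0]; nlinarith [hu.1]
            · rw [div_le_iff₀ hL0]; nlinarith [hu.2]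
          nlinarith [G0_nonneg κ u]
      _ ≤ _ := by
          apply setIntegral_mono_set hki
          · exact Eventually.of_forall fun u => mul_nonneg (hk0 _) (G0_nonneg κ u)
          · exact LE.le.eventuallyLE hs
  have h3 := hc.trans h2
  set Y := ∫ u in Ioc 0 (ℓ * L), k (u / L) * G0 κ u with hY
  have h4 : Real.sqrt Real.pi / (1 + ε) * X ≤ Y := (mul_le_mul_of_nonneg_right hL.le hX0).trans h3
  have h5 : X = (1 + ε) * (1 / Real.sqrt Real.pi) * (Real.sqrt Real.pi / (1 + ε) * X) := by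
    have : (1 + ε) ≠ 0 := by linarith
    field_simp
  rw [h5]
  exact mul_le_mul_of_nonneg_left h4 (by positivity)

end Pool.Agent.L5helper42.CV12
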