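import Pool.Agent.L5helper12.CV.Defs
import Pool.Agent.L5helper42.CV12a

/-! Plancherel on the half line, and the passage to the windows (for the project of L5helper12.CV). -/

set_option autoImplicit false

open Filter Topology Set MeasureTheory Complex H370

namespace Pool.Agent.L5helper42.CV12

open Pool.Agent.L5helper10.TV hiding GG
open Pool.Agent.L5helper12.CV

lemma om_eq : om = Pool.Agent.L5helper10.TV.g0 := rfl

theorem G0_half (κ : ℝ) (hκ0 : 0 ≤ κ) (hκ : κ ≤ 1) (u : ℝ) :
    IntegrableOn (fun t : ℝ => ‖SS κ om u t‖ ^ 2) (Ioi 0) ∧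
    Real.pi * G0 κ u = ∫ t in Ioi (0 : ℝ), ‖SS κ om u t‖ ^ 2 := Pool.Agent.L5helper42.CV12.g0_half κ hκ0 hκ u

end Pool.Agent.L5helper42.CV12
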